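import Pool.Agent.W795.TQ.Stm

/-! TQ-ITER: iteration over the scales. -/

set_option autoImplicit false

open MeasureTheory Set Filter Topology

namespace Pool.Agent.W12.TQ

open Pool.Agent.W795.TQ

theorem avg {f : ℝ → ℝ} {a b M : ℝ} (hab : a < b) (hf : IntegrableOn f (Ioo a b))
    (hM : ∫ t in a..b, f t ≤ M) : ∃ t ∈ Ioo a b, f t ≤ M / (b - a) := by
  have h1 : volume (Ioo a b) ≠ 0 := by
    rw [Real.volume_Ioo]
    simp [hab]
  have h2 : volume (Ioo a b) ≠ ⊤ := by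
    rw [Real.volume_Ioo]
    exact ENNReal.ofReal_ne_top
  obtain ⟨t, ht, hle⟩ := exists_le_setAverage h1 h2 hf
  refine ⟨t, ht, hle.trans ?_⟩
  rw [setAverage_eq, measureReal_def, Real.volume_Ioo, ENNReal.toReal_ofReal (by linarith),
    smul_eq_mul, ← integral_Ioc_eq_integral_Ioo, ← intervalIntegral.integral_of_le hab.le,
    inv_mul_eq_div]
  exact div_le_div_of_nonneg_right hM (by linarith)

/-- the hypotheses -/
structure Hy (C k L T h0 : ℝ) (y d : ℝ → ℝ) : Prop where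
  C0 : 0 ≤ C
  k0 : 0 < k
  k1 : k ≤ 1
  L0 : 0 ≤ L
  h00 : 0 < h0
  y0 : ∀ t, 0 ≤ y t
  d0 : ∀ t, 0 ≤ d t
  yi : IntegrableOn y (Ioo (T - h0) T)
  di : IntegrableOn (fun t => d t ^ 2) (Ioo (T - h0) T)
  tp : TP C L T h0 y d
  dh : ∀ h : ℝ, 0 < h → h ≤ h0 → ∫ t in (T - h)..T, d t ^ 2 ≤ k ^ 2 * (h * Real.sqrt h)

/-- the scaled quantity -/
noncomputable def XX (k T : ℝ) (y : ℝ → ℝ) (h : ℝ) : ℝ :=
  (∫ t in (T - h)..T, y t) / Real.sqrt h + k ^ 2

variable {C k L T h0 : ℝ} {y d : ℝ → ℝ}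

theorem Hy.yii (h : Hy C k L T h0 y d) {a b : ℝ} (ha : T - h0 ≤ a) (hab : a ≤ b) (hb : b ≤ T) :
    IntervalIntegrable y volume a b := by
  rw [intervalIntegrable_iff_integrableOn_Ioo_of_le hab]
  exact h.yi.mono_set (Ioo_subset_Ioo ha hb)

theorem Hy.dii (h : Hy C k L T h0 y d) {a b : ℝ} (ha : T - h0 ≤ a) (hab : a ≤ b) (hb : b ≤ T) :
    IntervalIntegrable (fun t => d t ^ 2) volume a b := by
  rw [intervalIntegrable_iff_integrableOn_Ioo_of_le hab]
  exact h.di.mono_set (Ioo_subset_Ioo ha hb)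

theorem Hy.I0 (h : Hy C k L T h0 y d) {a b : ℝ} (hab : a ≤ b) : 0 ≤ ∫ t in a..b, y t :=
  intervalIntegral.integral_nonneg hab (fun t _ => h.y0 t)

theorem Hy.X0 (h : Hy C k L T h0 y d) {H : ℝ} (hH : 0 < H) : 0 < XX k T y H := by
  have h1 := h.I0 (show T - H ≤ T by linarith)
  have h2 := h.k0
  unfold XX
  positivity

/-- step 1 -/
theorem Hy.s1 (h : Hy C k L T h0 y d) {H : ℝ} (hH : 0 < H) (hH0 : H ≤ h0) :
    ∃ t1 ∈ Ioo (T - H) T, y t1 ≤ 2 * XX k T y H / Real.sqrt H ∧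
      d t1 ^ 2 ≤ 2 * k ^ 2 * Real.sqrt H := by
  have hs : 0 < Real.sqrt H := Real.sqrt_pos.mpr hH
  have hss : Real.sqrt H * Real.sqrt H = H := Real.mul_self_sqrt hH.le
  have hk := h.k0
  have hI := h.I0 (show T - H ≤ T by linarith)
  obtain ⟨I, hIe⟩ : ∃ I, I = ∫ t in (T - H)..T, y t := ⟨_, rfl⟩
  rw [← hIe] at hI
  obtain ⟨P, hP⟩ : ∃ P, P = I + k ^ 2 * Real.sqrt H := ⟨_, rfl⟩
  have hP0 : 0 < P := by rw [hP]; positivity
  obtain ⟨Q, hQ⟩ : ∃ Q, Q = k ^ 2 * (H * Real.sqrt H) := ⟨_, rfl⟩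
  have hQ0 : 0 < Q := by rw [hQ]; positivity
  have hy := h.yii (a := T - H) (b := T) (by linarith) (by linarith) (le_refl _)
  have hd := h.dii (a := T - H) (b := T) (by linarith) (by linarith) (le_refl _)
  have hint : ∫ t in (T - H)..T, (P⁻¹ * y t + Q⁻¹ * d t ^ 2) ≤ 2 := by
    rw [intervalIntegral.integral_add (hy.const_mul _) (hd.const_mul _),
      intervalIntegral.integral_const_mul, intervalIntegral.integral_const_mul, ← hIe]
    have h1 : P⁻¹ * I ≤ 1 := by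
      rw [inv_mul_le_iff₀ hP0, hP]
      have : 0 ≤ k ^ 2 * Real.sqrt H := by positivity
      linarith
    have h2 : Q⁻¹ * (∫ t in (T - H)..T, d t ^ 2) ≤ 1 := by
      rw [inv_mul_le_iff₀ hQ0, mul_one, hQ]
      exact h.dh H hH hH0
    linarith
  obtain ⟨t1, ht1, hle⟩ := avg (show T - H < T by linarith)
    (by
      rw [← intervalIntegrable_iff_integrableOn_Ioo_of_le (by linarith)]
      exact (hy.const_mul _).add (hd.const_mul _)) hint
  have e1 : T - (T - H) = H := by ring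
  rw [e1] at hle
  have hy1 := h.y0 t1
  have hd1 : 0 ≤ d t1 ^ 2 := sq_nonneg _
  have hPi : 0 < P⁻¹ := inv_pos.mpr hP0
  have hQi : 0 < Q⁻¹ := inv_pos.mpr hQ0
  refine ⟨t1, ht1, ?_, ?_⟩
  · have h1 : P⁻¹ * y t1 ≤ 2 / H := by
      have : 0 ≤ Q⁻¹ * d t1 ^ 2 := by positivity
      linarith
    rw [inv_mul_le_iff₀ hP0] at h1
    refine h1.trans (le_of_eq ?_)
    rw [XX, ← hIe, hP]
    rw [eq_div_iff hs.ne']
    field_simp
    rw [Real.sq_sqrt hH.le]
  · have h1 : Q⁻¹ * d t1 ^ 2 ≤ 2 / H := by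
      have : 0 ≤ P⁻¹ * y t1 := by positivity
      linarith
    rw [inv_mul_le_iff₀ hQ0] at h1
    refine h1.trans (le_of_eq ?_)
    rw [hQ]
    field_simp

theorem sqrt_two_mul_le {h : ℝ} : Real.sqrt (2 * h) ≤ 3 / 2 * Real.sqrt h := by
  rw [Real.sqrt_mul (by norm_num)]
  apply mul_le_mul_of_nonneg_right _ (Real.sqrt_nonneg _)
  rw [Real.sqrt_le_left (by norm_num)]
  norm_num

theorem Hy.d2h (h : Hy C k L T h0 y d) {e : ℝ} (he : 0 < e) (he0 : 2 * e ≤ h0) :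
    ∫ t in (T - 2 * e)..T, d t ^ 2 ≤ 3 * k ^ 2 * (e * Real.sqrt e) := by
  refine (h.dh (2 * e) (by linarith) he0).trans ?_
  have h1 := sqrt_two_mul_le (h := e)
  have h2 : 2 * e * Real.sqrt (2 * e) ≤ 2 * e * (3 / 2 * Real.sqrt e) :=
    mul_le_mul_of_nonneg_left h1 (by linarith)
  have h3 : 0 < k ^ 2 := by have := h.k0; positivity
  nlinarith

/-- step 2 -/
theorem Hy.s2 (h : Hy C k L T h0 y d) {e : ℝ} (he : 0 < e) (he0 : 2 * e ≤ h0) :
    ∃ a ∈ Ioo (T - 2 * e) (T - e), d a ^ 2 ≤ 3 * k ^ 2 * Real.sqrt e := by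
  have hd := h.dii (a := T - 2 * e) (b := T) (by linarith) (by linarith) (le_refl _)
  have h1 : ∫ t in (T - 2 * e)..(T - e), d t ^ 2 ≤ 3 * k ^ 2 * (e * Real.sqrt e) := by
    refine le_trans ?_ (h.d2h he he0)
    exact intervalIntegral.integral_mono_interval (le_refl _) (by linarith) (by linarith)
      (ae_of_all _ fun t => sq_nonneg _) hd
  obtain ⟨a, ha, hle⟩ := avg (show T - 2 * e < T - e by linarith)
    (by
      rw [← intervalIntegrable_iff_integrableOn_Ioo_of_le (by linarith)]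
      exact h.dii (by linarith) (by linarith) (by linarith)) h1
  refine ⟨a, ha, hle.trans (le_of_eq ?_)⟩
  have e1 : T - e - (T - 2 * e) = e := by ring
  rw [e1]
  field_simp

/-- step 3a -/
theorem Hy.s3 (h : Hy C k L T h0 y d) {e : ℝ} (he : 0 < e) (he0 : e ≤ h0) :
    ∃ b ∈ Ioo (T - e) T, d b ^ 2 ≤ k ^ 2 * Real.sqrt e := by
  obtain ⟨a, ha, hle⟩ := avg (show T - e < T by linarith)
    (by
      rw [← intervalIntegrable_iff_integrableOn_Ioo_of_le (by linarith)]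
      exact h.dii (by linarith) (by linarith) (le_refl _)) (h.dh e he he0)
  refine ⟨a, ha, hle.trans (le_of_eq ?_)⟩
  have e1 : T - (T - e) = e := by ring
  rw [e1]
  field_simp

/-- the two scale inequality -/
theorem Hy.two (h : Hy C k L T h0 y d) {e H : ℝ} (he : 0 < e) (heH : 2 * e ≤ H) (hH0 : H ≤ h0) :
    ∃ y1 d1 da : ℝ, 0 ≤ y1 ∧ 0 ≤ d1 ∧ 0 ≤ da ∧ y1 ≤ 2 * XX k T y H / Real.sqrt H ∧
      d1 ^ 2 ≤ 2 * k ^ 2 * Real.sqrt H ∧ da ^ 2 ≤ 3 * k ^ 2 * Real.sqrt e ∧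
      ∫ t in (T - e)..T, y t ≤ C * (2 * e * (y1 + L) + (y1 ^ 2 + L) *
        (3 * k ^ 2 * (e * Real.sqrt e) + 2 * e * d1 ^ 2)) + C * (da * (da + d1)) := by
  have hH : 0 < H := by linarith
  obtain ⟨t1, ht1, hy1, hd1⟩ := h.s1 hH hH0
  obtain ⟨a, ha, hda⟩ := h.s2 he (heH.trans hH0)
  refine ⟨y t1, d t1, d a, h.y0 _, h.d0 _, h.d0 _, hy1, hd1, hda, ?_⟩
  -- points `b n`
  have hex : ∀ n : ℕ, ∃ b ∈ Ioo (T - e / (n + 1)) T, d b ^ 2 ≤ k ^ 2 * Real.sqrt (e / (n + 1)) := by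
    intro n
    apply h.s3 (by positivity)
    have : e / ((n : ℝ) + 1) ≤ e := by
      apply div_le_self he.le
      have : (0 : ℝ) ≤ n := Nat.cast_nonneg n
      linarith
    linarith
  choose b hb hdb using hex
  have hen : Tendsto (fun n : ℕ => e / ((n : ℝ) + 1)) atTop (𝓝 0) :=
    tendsto_const_div_atTop_nhds_zero_nat (C := e) |>.comp (tendsto_add_atTop_nat 1) |>.congr (by
      intro n; simp)
  have hbT : Tendsto b atTop (𝓝 T) := by
    apply tendsto_of_tendsto_of_tendsto_of_le_of_le (g := fun n : ℕ => T - e / ((n : ℝ) + 1))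
      (h := fun _ => T)
    · have := (tendsto_const_nhds (x := T)).sub hen
      rwa [sub_zero] at this
    · exact tendsto_const_nhds
    · intro n; exact (hb n).1.le
    · intro n; exact (hb n).2.le
  have hdb0 : Tendsto (fun n => d (b n)) atTop (𝓝 0) := by
    have h1 : Tendsto (fun n : ℕ => k * Real.sqrt (Real.sqrt (e / ((n : ℝ) + 1)))) atTop (𝓝 0) := by
      have h2 := (Real.continuous_sqrt.tendsto 0).comp hen
      rw [Real.sqrt_zero] at h2
      have h3 := (Real.continuous_sqrt.tendsto 0).comp h2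
      rw [Real.sqrt_zero] at h3
      have h4 := h3.const_mul k
      rwa [mul_zero] at h4
    apply squeeze_zero (fun n => h.d0 _) _ h1
    intro n
    have h2 : d (b n) = Real.sqrt (d (b n) ^ 2) := (Real.sqrt_sq (h.d0 _)).symm
    rw [h2]
    calc Real.sqrt (d (b n) ^ 2) ≤ Real.sqrt (k ^ 2 * Real.sqrt (e / ((n : ℝ) + 1))) :=
          Real.sqrt_le_sqrt (hdb n)
      _ = k * Real.sqrt (Real.sqrt (e / ((n : ℝ) + 1))) := by
          rw [Real.sqrt_mul (sq_nonneg k), Real.sqrt_sq h.k0.le]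
  have habn : ∀ n, a ≤ b n := by
    intro n
    have h1 := (hb n).1
    have h2 := ha.2
    have : e / ((n : ℝ) + 1) ≤ e := by
      apply div_le_self he.le
      have : (0 : ℝ) ≤ n := Nat.cast_nonneg n
      linarith
    linarith
  have haI : a ∈ Ioo (T - h0) T := ⟨by linarith [ha.1], by linarith [ha.2]⟩
  have ht1I : t1 ∈ Ioo (T - h0) T := ⟨by linarith [ht1.1], ht1.2⟩
  have hbI : ∀ n, b n ∈ Ioo (T - h0) T := fun n => ⟨haI.1.trans_le (habn n), (hb n).2⟩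
  have hTa : a ≤ T := haI.2.le
  -- the integral on the right
  have hJ : ∀ n, ∫ s in a..(b n), (y t1 + L + (y t1 ^ 2 + L) * (d s ^ 2 + d t1 ^ 2)) ≤
      2 * e * (y t1 + L) + (y t1 ^ 2 + L) * (3 * k ^ 2 * (e * Real.sqrt e) + 2 * e * d t1 ^ 2) := by
    intro n
    have hL := h.L0
    have hy1' := h.y0 t1
    have hdi := h.dii (a := T - 2 * e) (b := T) (by linarith) (by linarith) (le_refl _)
    have hfi : IntervalIntegrable (fun s => y t1 + L + (y t1 ^ 2 + L) * (d s ^ 2 + d t1 ^ 2)) volume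
        (T - 2 * e) T :=
      intervalIntegrable_const.add ((hdi.add intervalIntegrable_const).const_mul _)
    calc ∫ s in a..(b n), (y t1 + L + (y t1 ^ 2 + L) * (d s ^ 2 + d t1 ^ 2))
        ≤ ∫ s in (T - 2 * e)..T, (y t1 + L + (y t1 ^ 2 + L) * (d s ^ 2 + d t1 ^ 2)) :=
          intervalIntegral.integral_mono_interval ha.1.le (habn n) (hb n).2.le
            (ae_of_all _ fun t => by
              simp only [Pi.zero_apply]
              positivity) hfi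
      _ = 2 * e * (y t1 + L) + (y t1 ^ 2 + L) * ((∫ s in (T - 2 * e)..T, d s ^ 2) +
            2 * e * d t1 ^ 2) := by
          rw [intervalIntegral.integral_add intervalIntegrable_const
            ((hdi.add intervalIntegrable_const).const_mul _), intervalIntegral.integral_const_mul,
            intervalIntegral.integral_add hdi intervalIntegrable_const,
            intervalIntegral.integral_const, intervalIntegral.integral_const]
          simp only [smul_eq_mul]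
          ring
      _ ≤ _ := by
          have := h.d2h he (heH.trans hH0)
          have h3 : 0 ≤ y t1 ^ 2 + L := by positivity
          nlinarith [mul_le_mul_of_nonneg_left this h3]
  have hineq : ∀ n, ∫ s in a..(b n), y s ≤
      C * (2 * e * (y t1 + L) + (y t1 ^ 2 + L) * (3 * k ^ 2 * (e * Real.sqrt e) + 2 * e * d t1 ^ 2)) +
        C * ((d a + d (b n)) * (d a + d (b n) + d t1)) := by
    intro n
    refine (h.tp t1 ht1I a haI (b n) (hbI n) (habn n)).trans ?_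
    have := mul_le_mul_of_nonneg_left (hJ n) h.C0
    linarith
  have hlim1 : Tendsto (fun n => ∫ s in a..(b n), y s) atTop (𝓝 (∫ s in a..T, y s)) := by
    have hc : ContinuousOn (fun x => ∫ s in a..x, y s) (uIcc a T) := by
      apply intervalIntegral.continuousOn_primitive_interval
      rw [uIcc_of_le hTa, integrableOn_Icc_iff_integrableOn_Ioo]
      exact h.yi.mono_set (Ioo_subset_Ioo haI.1.le (le_refl _))
    have h2 := hc T right_mem_uIcc
    apply h2.tendsto.comp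
    apply tendsto_nhdsWithin_of_tendsto_nhds_of_eventually_within _ hbT
    refine Eventually.of_forall fun n => ?_
    rw [uIcc_of_le hTa]
    exact ⟨habn n, (hb n).2.le⟩
  have hlim2 : Tendsto (fun n => C * (2 * e * (y t1 + L) + (y t1 ^ 2 + L) *
      (3 * k ^ 2 * (e * Real.sqrt e) + 2 * e * d t1 ^ 2)) +
        C * ((d a + d (b n)) * (d a + d (b n) + d t1))) atTop
      (𝓝 (C * (2 * e * (y t1 + L) + (y t1 ^ 2 + L) *
      (3 * k ^ 2 * (e * Real.sqrt e) + 2 * e * d t1 ^ 2)) +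
        C * ((d a + 0) * (d a + 0 + d t1)))) := by
    apply tendsto_const_nhds.add
    apply Tendsto.const_mul
    exact (tendsto_const_nhds.add hdb0).mul ((tendsto_const_nhds.add hdb0).add tendsto_const_nhds)
  have hfin := le_of_tendsto_of_tendsto' hlim1 hlim2 hineq
  rw [add_zero] at hfin
  refine le_trans ?_ hfin
  exact intervalIntegral.integral_mono_interval ha.2.le (by linarith) (le_refl _)
    (ae_of_all _ fun t => h.y0 t) (h.yii haI.1.le hTa (le_refl _))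

set_option maxHeartbeats 1000000 in
theorem alg {C K k L X s S θ y1 d1 da I : ℝ} (hC : 0 ≤ C) (hK : 28 * C + 1 ≤ K) (hk0 : 0 < k)
    (hk1 : k ≤ 1) (hL : 0 ≤ L) (hX : 0 < X) (hs : 0 < s) (hS : 0 < S) (hS1 : S ≤ 1)
    (hθ : θ * (8 * K * (1 + k ^ 2 * X)) = 1) (hsS : s = S * θ)
    (hy0 : 0 ≤ y1) (hda0 : 0 ≤ da) (hy : y1 * S ≤ 2 * X)
    (hd : d1 ^ 2 ≤ 2 * k ^ 2 * S) (hda : da ^ 2 ≤ 3 * k ^ 2 * s) (hLs : 9 * K * L * s ≤ k ^ 2)
    (hI : I ≤ C * (2 * s ^ 2 * (y1 + L) + (y1 ^ 2 + L) * (3 * k ^ 2 * (s ^ 2 * s) +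
      2 * s ^ 2 * d1 ^ 2)) + C * (da * (da + d1))) :
    I / s + k ^ 2 ≤ X / 4 + (96 * K ^ 3 + 3 * K + 3) * k ^ 2 := by
  have hK1 : 1 ≤ K := by linarith
  have hK0 : 0 < K := by linarith
  have hk2 : 0 < k ^ 2 := by positivity
  have hk21 : k ^ 2 ≤ 1 := pow_le_one₀ hk0.le hk1
  have hden : 1 ≤ 8 * K * (1 + k ^ 2 * X) := by
    have h1 : 0 < k ^ 2 * X := by positivity
    nlinarith
  have hθ0 : 0 < θ := by
    by_contra hne
    push Not at hne
    have : θ * (8 * K * (1 + k ^ 2 * X)) ≤ 0 := mul_nonpos_of_nonpos_of_nonneg hne (by linarith)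
    linarith
  have hθ1 : θ ≤ 1 := by
    by_contra hne
    push Not at hne
    nlinarith
  have hsle : s ≤ S := by rw [hsS]; nlinarith
  -- the pieces
  have h1 : 2 * s ^ 2 * y1 ≤ s * (4 * θ * X) := by
    have e : 2 * s ^ 2 * y1 = 2 * s * θ * (y1 * S) := by rw [pow_two]; nth_rewrite 2 [hsS]; ring
    rw [e]
    have := mul_le_mul_of_nonneg_left hy (show 0 ≤ 2 * s * θ by positivity)
    linarith
  have h2 : 3 * k ^ 2 * (s ^ 2 * s) + 2 * s ^ 2 * d1 ^ 2 ≤ 7 * k ^ 2 * s ^ 2 * S := by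
    have a1 : 3 * k ^ 2 * (s ^ 2 * s) ≤ 3 * k ^ 2 * (s ^ 2 * S) := by
      apply mul_le_mul_of_nonneg_left _ (by positivity)
      exact mul_le_mul_of_nonneg_left hsle (by positivity)
    have a2 : 2 * s ^ 2 * d1 ^ 2 ≤ 2 * s ^ 2 * (2 * k ^ 2 * S) :=
      mul_le_mul_of_nonneg_left hd (by positivity)
    linarith
  have h3 : y1 ^ 2 * (7 * k ^ 2 * s ^ 2 * S) ≤ s * (28 * k ^ 2 * X ^ 2 * θ) := by
    have e : y1 ^ 2 * (7 * k ^ 2 * s ^ 2 * S) = 7 * k ^ 2 * s * θ * (y1 * S) ^ 2 := by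
      rw [pow_two s]; nth_rewrite 2 [hsS]; ring
    rw [e]
    have a1 : (y1 * S) ^ 2 ≤ (2 * X) ^ 2 := pow_le_pow_left₀ (by positivity) hy 2
    have := mul_le_mul_of_nonneg_left a1 (show 0 ≤ 7 * k ^ 2 * s * θ by positivity)
    linarith
  have h4 : L * (7 * k ^ 2 * s ^ 2 * S) ≤ s * (7 * L * s) := by
    have a1 : k ^ 2 * S ≤ 1 := by nlinarith
    have := mul_le_mul_of_nonneg_left a1 (show 0 ≤ 7 * L * s ^ 2 by positivity)
    nlinarith
  have h5 : (y1 ^ 2 + L) * (3 * k ^ 2 * (s ^ 2 * s) + 2 * s ^ 2 * d1 ^ 2) ≤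
      s * (28 * k ^ 2 * X ^ 2 * θ) + s * (7 * L * s) := by
    have := mul_le_mul_of_nonneg_left h2 (show 0 ≤ y1 ^ 2 + L by positivity)
    nlinarith
  -- the product of the distances
  have h6 : da * d1 ≤ s * k ^ 2 * (1 / (64 * K ^ 2) * (8 * K * (1 + k ^ 2 * X)) + 96 * K ^ 2) := by
    have a1 : 2 * (da * d1) ≤ 1 / (64 * K ^ 2) * d1 ^ 2 + 64 * K ^ 2 * da ^ 2 := by
      have := sq_nonneg (1 / (8 * K) * d1 - 8 * K * da)
      have e : (1 / (8 * K) * d1 - 8 * K * da) ^ 2 =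
          1 / (64 * K ^ 2) * d1 ^ 2 + 64 * K ^ 2 * da ^ 2 - 2 * (da * d1) := by
        field_simp
        ring
      linarith
    have a2 : 1 / (64 * K ^ 2) * d1 ^ 2 ≤ 1 / (64 * K ^ 2) * (2 * k ^ 2 * S) :=
      mul_le_mul_of_nonneg_left hd (by positivity)
    have a3 : 64 * K ^ 2 * da ^ 2 ≤ 64 * K ^ 2 * (3 * k ^ 2 * s) :=
      mul_le_mul_of_nonneg_left hda (by positivity)
    have a4 : S = s * (8 * K * (1 + k ^ 2 * X)) := by
      rw [hsS, mul_assoc, hθ, mul_one]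
    have a5 : 1 / (64 * K ^ 2) * (2 * k ^ 2 * S) =
        2 * (s * k ^ 2 * (1 / (64 * K ^ 2) * (8 * K * (1 + k ^ 2 * X)))) := by
      nth_rewrite 1 [a4]
      ring
    linarith
  have h7 : C * (da * (da + d1)) ≤ s * (X / 8 + (96 * K ^ 3 + 3 * K + 1) * k ^ 2) := by
    have a1 : da * (da + d1) ≤ s * k ^ 2 * (3 + (1 / (64 * K ^ 2) * (8 * K * (1 + k ^ 2 * X)) +
        96 * K ^ 2)) := by
      have b1 : da * (da + d1) = da ^ 2 + da * d1 := by ring
      rw [b1, mul_add (s * k ^ 2) 3]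
      linarith
    have hCK : C ≤ K := by linarith
    have a2 : 0 ≤ s * k ^ 2 * (3 + (1 / (64 * K ^ 2) * (8 * K * (1 + k ^ 2 * X)) +
        96 * K ^ 2)) := by positivity
    have a3 : C * (da * (da + d1)) ≤ K * (s * k ^ 2 * (3 + (1 / (64 * K ^ 2) *
        (8 * K * (1 + k ^ 2 * X)) + 96 * K ^ 2))) :=
      (mul_le_mul_of_nonneg_left a1 hC).trans (mul_le_mul_of_nonneg_right hCK a2)
    refine a3.trans ?_
    have e : K * (s * k ^ 2 * (3 + (1 / (64 * K ^ 2) * (8 * K * (1 + k ^ 2 * X)) + 96 * K ^ 2))) =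
        s * (k ^ 2 * (1 + k ^ 2 * X) / 8 + (96 * K ^ 3 + 3 * K) * k ^ 2) := by
      field_simp
      ring
    rw [e]
    apply mul_le_mul_of_nonneg_left _ hs.le
    have a4 : k ^ 2 * (k ^ 2 * X) ≤ X := by
      have : k ^ 2 * k ^ 2 ≤ 1 := by nlinarith
      nlinarith
    linarith
  have h8 : C * (2 * s ^ 2 * (y1 + L) + (y1 ^ 2 + L) * (3 * k ^ 2 * (s ^ 2 * s) +
      2 * s ^ 2 * d1 ^ 2)) ≤ s * (X / 8 + k ^ 2) := by
    have a1 : 2 * s ^ 2 * (y1 + L) + (y1 ^ 2 + L) * (3 * k ^ 2 * (s ^ 2 * s) +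
      2 * s ^ 2 * d1 ^ 2) ≤ s * (28 * (θ * (X * (1 + k ^ 2 * X))) + 9 * L * s) := by
      have b1 : 0 ≤ s * (θ * X) := by positivity
      nlinarith
    have a2 := mul_le_mul_of_nonneg_left a1 hC
    have a3 : C * (s * (28 * (θ * (X * (1 + k ^ 2 * X))) + 9 * L * s)) ≤
        s * (K * (θ * (X * (1 + k ^ 2 * X))) + 9 * K * L * s) := by
      have b1 : 0 ≤ s * (θ * (X * (1 + k ^ 2 * X))) := by positivity
      have b2 : 0 ≤ s * (L * s) := by positivity
      have b3 : C ≤ K := by linarith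
      nlinarith [mul_le_mul_of_nonneg_right b3 b2,
        mul_le_mul_of_nonneg_right (show 28 * C ≤ K by linarith) b1]
    have a4 : K * (θ * (X * (1 + k ^ 2 * X))) = X / 8 := by
      linear_combination (X / 8) * hθ
    rw [a4] at a3
    have a5 : s * (X / 8 + 9 * K * L * s) ≤ s * (X / 8 + k ^ 2) :=
      mul_le_mul_of_nonneg_left (by linarith) hs.le
    linarith
  have h9 : I ≤ s * (X / 4 + (96 * K ^ 3 + 3 * K + 2) * k ^ 2) := by
    have b1 : s * (X / 4 + (96 * K ^ 3 + 3 * K + 2) * k ^ 2) =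
        s * (X / 8 + k ^ 2) + s * (X / 8 + (96 * K ^ 3 + 3 * K + 1) * k ^ 2) := by ring
    rw [b1]
    linarith
  have h10 : I / s ≤ X / 4 + (96 * K ^ 3 + 3 * K + 2) * k ^ 2 := by
    rw [div_le_iff₀ hs]
    linarith
  linarith

theorem Hy.step (h : Hy C k L T h0 y d) {H : ℝ} (hH : 0 < H) (hH0 : H ≤ h0) (hH1 : H ≤ 1)
    (hL : 9 * (28 * C + 1) * L * Real.sqrt H ≤ k ^ 2) :
    ∃ e : ℝ, 0 < e ∧ e ≤ H / 4 ∧ XX k T y e ≤ XX k T y H / 4 +
      (96 * (28 * C + 1) ^ 3 + 3 * (28 * C + 1) + 3) * k ^ 2 := by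
  obtain ⟨K, hK⟩ : ∃ K, K = 28 * C + 1 := ⟨_, rfl⟩
  rw [← hK] at hL ⊢
  have hC := h.C0
  have hk0 := h.k0
  have hK1 : 1 ≤ K := by linarith
  obtain ⟨X, hXe⟩ : ∃ X, X = XX k T y H := ⟨_, rfl⟩
  have hX0 : 0 < X := by rw [hXe]; exact h.X0 hH
  obtain ⟨θ, hθe⟩ : ∃ θ, θ = 1 / (8 * K * (1 + k ^ 2 * X)) := ⟨_, rfl⟩
  have hkX : 0 < k ^ 2 * X := by positivity
  have hθ0 : 0 < θ := by rw [hθe]; positivity
  have hθ : θ * (8 * K * (1 + k ^ 2 * X)) = 1 := by
    rw [hθe]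
    field_simp
  have hθ1 : θ ≤ 1 / 8 := by
    rw [hθe]
    apply one_div_le_one_div_of_le (by norm_num)
    nlinarith
  have hS : 0 < Real.sqrt H := Real.sqrt_pos.mpr hH
  have hSS : Real.sqrt H * Real.sqrt H = H := Real.mul_self_sqrt hH.le
  have hS1 : Real.sqrt H ≤ 1 := by
    rw [Real.sqrt_le_left zero_le_one, one_pow]
    exact hH1
  have he : Real.sqrt (H * θ ^ 2) = Real.sqrt H * θ := by
    rw [Real.sqrt_mul hH.le, Real.sqrt_sq hθ0.le]
  have hθ2 : θ ^ 2 ≤ 1 / 64 := by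
    calc θ ^ 2 ≤ (1 / 8) ^ 2 := pow_le_pow_left₀ hθ0.le hθ1 2
      _ = 1 / 64 := by norm_num
  have hle : H * θ ^ 2 ≤ H / 64 := by nlinarith
  obtain ⟨y1, d1, da, hy0, hd0, hda0, hy, hd, hda, hI⟩ :=
    h.two (e := H * θ ^ 2) (H := H) (by positivity) (by linarith) hH0
  refine ⟨H * θ ^ 2, by positivity, by linarith, ?_⟩
  rw [← hXe] at hy ⊢
  rw [he] at hda hI
  rw [XX, he]
  refine alg (s := Real.sqrt H * θ) (S := Real.sqrt H) (θ := θ) (y1 := y1) (d1 := d1) (da := da)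
    hC hK.symm.le hk0 h.k1 h.L0 hX0 (by positivity) hS hS1 hθ rfl hy0 hda0 ?_ hd hda ?_ ?_
  · rwa [le_div_iff₀ hS] at hy
  · have : 9 * K * L * (Real.sqrt H * θ) ≤ 9 * K * L * Real.sqrt H := by
      have hL0 := h.L0
      apply mul_le_mul_of_nonneg_left _ (by positivity)
      nlinarith
    linarith
  · have e1 : (Real.sqrt H * θ) ^ 2 = H * θ ^ 2 := by rw [mul_pow, Real.sq_sqrt hH.le]
    rw [e1]
    exact hI

theorem Hy.iter (h : Hy C k L T h0 y d) {H : ℝ} (hH : 0 < H) (hH0 : H ≤ h0) (hH1 : H ≤ 1)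
    (hL : 9 * (28 * C + 1) * L * Real.sqrt H ≤ k ^ 2) (n : ℕ) :
    ∃ e : ℝ, 0 < e ∧ e ≤ H / 4 ^ n ∧ XX k T y e ≤ XX k T y H / 4 ^ n +
      4 / 3 * (96 * (28 * C + 1) ^ 3 + 3 * (28 * C + 1) + 3) * k ^ 2 := by
  have hC := h.C0
  have hk0 := h.k0
  have hL0 := h.L0
  induction n with
  | zero =>
    refine ⟨H, hH, by simp, ?_⟩
    have : 0 ≤ 4 / 3 * (96 * (28 * C + 1) ^ 3 + 3 * (28 * C + 1) + 3) * k ^ 2 := by positivity
    simp only [pow_zero, div_one]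
    linarith
  | succ n ih =>
    obtain ⟨e, he0, he1, he2⟩ := ih
    have heH : e ≤ H := he1.trans (div_le_self hH.le (one_le_pow₀ (by norm_num)))
    obtain ⟨e', h0', h1', h2'⟩ := h.step he0 (heH.trans hH0) (heH.trans hH1) (by
      refine le_trans ?_ hL
      exact mul_le_mul_of_nonneg_left (Real.sqrt_le_sqrt heH) (by positivity))
    refine ⟨e', h0', ?_, ?_⟩
    · rw [pow_succ, ← div_div]
      linarith
    · rw [pow_succ, ← div_div]
      linarith

theorem proof : S_iter := by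
  intro C hC
  obtain ⟨C3, hC3⟩ : ∃ C3, C3 = 96 * (28 * C + 1) ^ 3 + 3 * (28 * C + 1) + 3 := ⟨_, rfl⟩
  have hC30 : 0 < C3 := by rw [hC3]; positivity
  refine ⟨2 * C3, by positivity, ?_⟩
  intro k L T h0 y d hk0 hk1 hL0 hh0 hy hd hyi hdi hTP hdh h1 hh1
  have hHy : Hy C k L T h0 y d := by
    refine ⟨hC, hk0, hk1, hL0, hh0, hy, hd, hyi, hdi, hTP, ?_⟩
    intro h hh hhh
    have e : h ^ (3 / 2 : ℝ) = h * Real.sqrt h := by
      rw [Real.sqrt_eq_rpow, show (3 / 2 : ℝ) = 1 + 1 / 2 by norm_num, Real.rpow_add hh,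
        Real.rpow_one]
    rw [← e]
    exact hdh h hh hhh
  obtain ⟨q, hq⟩ : ∃ q, q = k ^ 2 / (9 * (28 * C + 1) * L + 1) := ⟨_, rfl⟩
  have hq0 : 0 < q := by rw [hq]; positivity
  obtain ⟨H, hHe⟩ : ∃ H, H = min (min h0 1) (q ^ 2) := ⟨_, rfl⟩
  have hH : 0 < H := by
    rw [hHe]
    exact lt_min (lt_min hh0 one_pos) (by positivity)
  have hHh0 : H ≤ h0 := by rw [hHe]; exact (min_le_left _ _).trans (min_le_left _ _)
  have hH1 : H ≤ 1 := by rw [hHe]; exact (min_le_left _ _).trans (min_le_right _ _)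
  have hHq : Real.sqrt H ≤ q := by
    rw [Real.sqrt_le_left hq0.le, hHe]
    exact min_le_right _ _
  have hL : 9 * (28 * C + 1) * L * Real.sqrt H ≤ k ^ 2 := by
    have h2 : 9 * (28 * C + 1) * L * Real.sqrt H ≤ 9 * (28 * C + 1) * L * q :=
      mul_le_mul_of_nonneg_left hHq (by positivity)
    have h3 : (9 * (28 * C + 1) * L + 1) * q = k ^ 2 := by
      rw [hq]
      field_simp
    linarith
  have hX0 := hHy.X0 hH
  have hlim1 : Tendsto (fun n : ℕ => H / 4 ^ n) atTop (𝓝 0) := by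
    have := (tendsto_pow_atTop_nhds_zero_of_lt_one (show (0 : ℝ) ≤ 1 / 4 by norm_num)
      (by norm_num)).const_mul H
    rw [mul_zero] at this
    refine this.congr (fun n => ?_)
    rw [one_div, inv_pow, div_eq_mul_inv]
  have hlim2 : Tendsto (fun n : ℕ => XX k T y H / 4 ^ n) atTop (𝓝 0) := by
    have := (tendsto_pow_atTop_nhds_zero_of_lt_one (show (0 : ℝ) ≤ 1 / 4 by norm_num)
      (by norm_num)).const_mul (XX k T y H)
    rw [mul_zero] at this
    refine this.congr (fun n => ?_)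
    rw [one_div, inv_pow, div_eq_mul_inv]
  have hk2 : 0 < C3 * k ^ 2 := by positivity
  obtain ⟨n, hn1, hn2⟩ := ((hlim1.eventually (gt_mem_nhds hh1)).and
    (hlim2.eventually (gt_mem_nhds (show (0 : ℝ) < 1 / 3 * (C3 * k ^ 2) by positivity)))).exists
  obtain ⟨e, he0, he1, he2⟩ := hHy.iter hH hHh0 hH1 hL n
  have heH : e ≤ H := he1.trans (div_le_self hH.le (one_le_pow₀ (by norm_num)))
  refine ⟨e, he0, lt_of_le_of_lt he1 hn1, heH.trans hHh0, ?_⟩
  rw [← hC3] at he2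
  have hs : 0 < Real.sqrt e := Real.sqrt_pos.mpr he0
  have h4 : (∫ t in (T - e)..T, y t) / Real.sqrt e ≤ 2 * C3 * k ^ 2 := by
    have h5 : XX k T y e = (∫ t in (T - e)..T, y t) / Real.sqrt e + k ^ 2 := rfl
    have h6 : 0 < k ^ 2 := by positivity
    linarith
  rw [div_le_iff₀ hs] at h4
  linarith

end Pool.Agent.W12.TQ
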